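import Mathlib

set_option autoImplicit false

namespace Pool.Agent.TH557.J615

open Filter Topology

/-- The maximum principle for a nonnegative matrix: no rotating mode dominated by a fixed vector. -/
theorem maxprin {Z : Type} [Fintype Z] (M : Z → Z → ℝ) (hM : ∀ z z', 0 ≤ M z z') (om : ℂ)
    (hom : ‖om‖ = 1) (hroot : ∀ n : ℕ, 0 < n → om ^ n ≠ 1) (h : Z → ℂ) (u : Z → ℝ)
    (hh : ∀ z, ∑ z', (M z z' : ℂ) * h z' = om * h z)
    (hu : ∀ z, ∑ z', M z z' * u z' = u z) (hle : ∀ z, ‖h z‖ ≤ u z) (z : Z) : h z = 0 := by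
  classical
  by_contra hz1
  have hu1 : 0 < u z := (norm_pos_iff.2 hz1).trans_le (hle z)
  let P : Finset Z := Finset.univ.filter (fun z => 0 < u z)
  have hP : ∀ z, 0 < u z → z ∈ P := fun z h2 => Finset.mem_filter.2 ⟨Finset.mem_univ _, h2⟩
  obtain ⟨z0, hz0P, hz0max⟩ := P.exists_max_image (fun z => ‖h z‖ / u z) ⟨z, hP z hu1⟩
  obtain ⟨r, hrdef⟩ : ∃ r, r = ‖h z0‖ / u z0 := ⟨_, rfl⟩
  have hz0max' : ∀ z, 0 < u z → ‖h z‖ / u z ≤ r := fun z h2 => by
    rw [hrdef]; exact hz0max z (hP z h2)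
  have hr : 0 < r := (div_pos (norm_pos_iff.2 hz1) hu1).trans_le (hz0max' z hu1)
  have hrle : ∀ z, ‖h z‖ ≤ r * u z := by
    intro z
    have h0 : 0 ≤ u z := (norm_nonneg _).trans (hle z)
    rcases h0.lt_or_eq with h1 | h1
    · have h2 := hz0max' z h1
      rwa [div_le_iff₀ h1] at h2
    · have h2 := hle z
      rw [← h1] at h2 ⊢
      rw [mul_zero]
      exact h2
  have hz0 : 0 < u z0 := (Finset.mem_filter.1 hz0P).2
  have hnext : ∀ z : {z : Z // 0 < u z ∧ ‖h z‖ = r * u z},
      ∃ z' : {z : Z // 0 < u z ∧ ‖h z‖ = r * u z},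
        h z'.1 / (u z'.1 : ℂ) = om * (h z.1 / (u z.1 : ℂ)) := by
    rintro ⟨z, huz, hhz⟩
    obtain ⟨w, hw⟩ : ∃ w : ℂ, w = om * h z := ⟨_, rfl⟩
    have hwn : ‖w‖ = r * u z := by
      rw [hw, norm_mul, hom, hhz, one_mul]
    have hwpos : 0 < ‖w‖ := by rw [hwn]; positivity
    have hwne : (‖w‖ : ℂ) ≠ 0 := by exact_mod_cast hwpos.ne'
    obtain ⟨a, ha⟩ : ∃ a : ℂ, a = (starRingEnd ℂ w) / (‖w‖ : ℂ) := ⟨_, rfl⟩
    have haw : a * w = (‖w‖ : ℂ) := by
      rw [ha, div_mul_eq_mul_div, Complex.conj_mul', div_eq_iff hwne]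
      ring
    have han : ‖a‖ = 1 := by
      rw [ha, norm_div, RCLike.norm_conj, Complex.norm_real, norm_norm, div_self hwpos.ne']
    have hsum : ∑ z', M z z' * (r * u z' - (a * h z').re) = 0 := by
      have e1 : ∑ z', M z z' * (r * u z' - (a * h z').re) =
          r * (∑ z', M z z' * u z') - (a * ∑ z', (M z z' : ℂ) * h z').re := by
        rw [Finset.mul_sum, Finset.mul_sum, Complex.re_sum, ← Finset.sum_sub_distrib]
        refine Finset.sum_congr rfl fun z' _ => ?_
        have e2 : a * ((M z z' : ℂ) * h z') = (M z z' : ℂ) * (a * h z') := by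
          ring
        rw [e2, Complex.re_ofReal_mul]
        ring
      rw [e1, hu z, hh z, ← hw, haw, Complex.ofReal_re, hwn]
      ring
    have hterm : ∀ z', 0 ≤ M z z' * (r * u z' - (a * h z').re) := by
      intro z'
      apply mul_nonneg (hM _ _)
      have h1 := hrle z'
      have h2 : (a * h z').re ≤ ‖a * h z'‖ := Complex.re_le_norm _
      rw [norm_mul, han, one_mul] at h2
      linarith
    have hz := (Finset.sum_eq_zero_iff_of_nonneg (fun z' _ => hterm z')).1 hsum
    have hpos : 0 < ∑ z', M z z' * u z' := by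
      rw [hu z]; exact huz
    obtain ⟨z', -, hz'⟩ := Finset.exists_lt_of_sum_lt (s := Finset.univ) (f := fun _ : Z => (0 : ℝ))
      (g := fun z' => M z z' * u z') (by simpa using hpos)
    have hMne : M z z' ≠ 0 := by
      intro h0
      rw [h0] at hz'
      simp at hz'
    have huz' : 0 < u z' := by
      by_contra hneg
      push Not at hneg
      have := mul_nonpos_of_nonneg_of_nonpos (hM z z') hneg
      linarith
    have hre : (a * h z').re = r * u z' := by
      have h1 := hz z' (Finset.mem_univ _)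
      rcases mul_eq_zero.1 h1 with h2 | h2
      · exact absurd h2 hMne
      · linarith
    have hnorm : ‖a * h z'‖ = r * u z' := by
      apply le_antisymm
      · rw [norm_mul, han, one_mul]; exact hrle z'
      · rw [← hre]; exact Complex.re_le_norm _
    have him : (a * h z').im = 0 := by
      have h1 := Complex.sq_norm (a * h z')
      rw [Complex.normSq_apply, hnorm, hre] at h1
      have h2 : (a * h z').im * (a * h z').im = 0 := by linarith [sq (r * u z')]
      exact mul_self_eq_zero.1 h2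
    have hval : a * h z' = ((r * u z' : ℝ) : ℂ) := by
      apply Complex.ext
      · rw [hre, Complex.ofReal_re]
      · rw [him, Complex.ofReal_im]
    refine ⟨⟨z', huz', ?_⟩, ?_⟩
    · rw [norm_mul, han, one_mul] at hnorm
      exact hnorm
    · show h z' / (u z' : ℂ) = om * (h z / (u z : ℂ))
      have hane : a ≠ 0 := by
        intro h0
        rw [h0, norm_zero] at han
        exact zero_ne_one han
      have h1 : (u z' : ℂ) ≠ 0 := by exact_mod_cast huz'.ne'
      have h2 : (u z : ℂ) ≠ 0 := by exact_mod_cast huz.ne'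
      apply mul_left_cancel₀ hane
      have h3 : a * (h z' / (u z' : ℂ)) = r := by
        rw [← mul_div_assoc, hval]
        push_cast
        field_simp
      have h4 : a * (om * h z) = ((r * u z : ℝ) : ℂ) := by
        rw [← hw, haw, hwn]
      rw [h3]
      calc (r : ℂ) = ((r * u z : ℝ) : ℂ) / (u z : ℂ) := by push_cast; field_simp
        _ = a * (om * (h z / (u z : ℂ))) := by rw [← h4]; ring
  choose nx hnx using hnext
  have hz0n : ‖h z0‖ = r * u z0 := by
    rw [hrdef, div_mul_cancel₀ _ hz0.ne']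
  let s : {z : Z // 0 < u z ∧ ‖h z‖ = r * u z} := ⟨z0, hz0, hz0n⟩
  have hit : ∀ n : ℕ, h (nx^[n] s).1 / (u (nx^[n] s).1 : ℂ) = om ^ n * (h z0 / (u z0 : ℂ)) := by
    intro n
    induction n with
    | zero => rw [pow_zero, one_mul]; rfl
    | succ n ih =>
      rw [Function.iterate_succ_apply', hnx, ih, pow_succ]
      ring
  have hk0 : h z0 / (u z0 : ℂ) ≠ 0 := by
    apply div_ne_zero
    · intro h0
      rw [h0, norm_zero] at hz0n
      have := mul_pos hr hz0
      linarith
    · exact_mod_cast hz0.ne'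
  have homne : om ≠ 0 := by
    intro h0
    rw [h0, norm_zero] at hom
    exact zero_ne_one hom
  obtain ⟨i, j, hij, heq⟩ := Finite.exists_ne_map_eq_of_infinite (fun n : ℕ => nx^[n] s)
  have hkey : om ^ i = om ^ j := by
    have h1 := hit i
    have h2 := hit j
    have heq' : nx^[i] s = nx^[j] s := heq
    rw [heq', h2] at h1
    exact (mul_right_cancel₀ hk0 h1).symm
  rcases Nat.lt_or_gt_of_ne hij with hlt | hlt
  · apply hroot (j - i) (by omega)
    have h1 : om ^ j = om ^ i * om ^ (j - i) := by rw [← pow_add]; congr 1; omega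
    rw [h1] at hkey
    exact (mul_left_cancel₀ (pow_ne_zero i homne) (by rw [mul_one]; exact hkey)).symm
  · apply hroot (i - j) (by omega)
    have h1 : om ^ i = om ^ j * om ^ (i - j) := by rw [← pow_add]; congr 1; omega
    rw [h1] at hkey
    exact mul_left_cancel₀ (pow_ne_zero j homne) (by rw [mul_one]; exact hkey)

/-- averages -/
noncomputable def av {Z : Type} (𝕜 : Type) [RCLike 𝕜] (w : 𝕜) (β : ℕ → Z → ℝ) (N : ℕ) (z : Z) : 𝕜 :=
  ((N : 𝕜) + 1)⁻¹ * ∑ m ∈ Finset.range (N + 1), w ^ m * (β m z : 𝕜)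

theorem av_rec {Z : Type} [Fintype Z] (𝕜 : Type) [RCLike 𝕜] (M : Z → Z → ℝ) (w v : 𝕜)
    (hwv : v * w = 1) (β : ℕ → Z → ℝ) (z : Z)
    (hβ : ∀ m, ∑ z', M z z' * β m z' = β (m + 1) z) (N : ℕ) :
    ∑ z', (M z z' : 𝕜) * av 𝕜 w β N z' = v * av 𝕜 w β N z +
      ((N : 𝕜) + 1)⁻¹ * (v * (w ^ (N + 1) * (β (N + 1) z : 𝕜) - (β 0 z : 𝕜))) := by
  have hβ' : ∀ m, ∑ z', (M z z' : 𝕜) * (β m z' : 𝕜) = (β (m + 1) z : 𝕜) := by
    intro m
    have := congrArg (fun r : ℝ => (r : 𝕜)) (hβ m)
    push_cast at this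
    exact this
  have e1 : ∑ z', (M z z' : 𝕜) * av 𝕜 w β N z' =
      ((N : 𝕜) + 1)⁻¹ * ∑ m ∈ Finset.range (N + 1), v * (w ^ (m + 1) * (β (m + 1) z : 𝕜)) := by
    unfold av
    have : ∀ z', (M z z' : 𝕜) * (((N : 𝕜) + 1)⁻¹ * ∑ m ∈ Finset.range (N + 1), w ^ m * (β m z' : 𝕜)) =
        ∑ m ∈ Finset.range (N + 1), ((N : 𝕜) + 1)⁻¹ * (w ^ m * ((M z z' : 𝕜) * (β m z' : 𝕜))) := by
      intro z'
      rw [Finset.mul_sum, Finset.mul_sum]
      apply Finset.sum_congr rfl
      intro m _
      ring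
    rw [Finset.sum_congr rfl (fun z' _ => this z'), Finset.sum_comm, Finset.mul_sum]
    apply Finset.sum_congr rfl
    intro m _
    rw [← Finset.mul_sum, ← Finset.mul_sum, hβ' m]
    congr 1
    have : w ^ m = v * w ^ (m + 1) := by
      rw [pow_succ]
      calc w ^ m = w ^ m * (v * w) := by rw [hwv, mul_one]
        _ = v * (w ^ m * w) := by ring
    rw [this]
    ring
  have e2 : ∑ m ∈ Finset.range (N + 1), w ^ (m + 1) * (β (m + 1) z : 𝕜) =
      ∑ m ∈ Finset.range (N + 1), w ^ m * (β m z : 𝕜) + w ^ (N + 1) * (β (N + 1) z : 𝕜) -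
        (β 0 z : 𝕜) := by
    have h1 := Finset.sum_range_succ (fun m => w ^ m * (β m z : 𝕜)) (N + 1)
    have h2 := Finset.sum_range_succ' (fun m => w ^ m * (β m z : 𝕜)) (N + 1)
    rw [h1] at h2
    simp only [pow_zero, one_mul] at h2
    rw [h2]
    ring
  rw [e1, ← Finset.mul_sum, e2]
  unfold av
  ring

theorem av_bound {Z : Type} (𝕜 : Type) [RCLike 𝕜] (w : 𝕜) (hw : ‖w‖ = 1) (β : ℕ → Z → ℝ)
    (B : ℝ) (z : Z) (hβ : ∀ m, |β m z| ≤ B) (N : ℕ) : ‖av 𝕜 w β N z‖ ≤ B := by
  unfold av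
  rw [norm_mul, norm_inv]
  have e : ‖((N : 𝕜) + 1)‖ = (N : ℝ) + 1 := by
    have : ((N : 𝕜) + 1) = (((N : ℝ) + 1 : ℝ) : 𝕜) := by push_cast; rfl
    rw [this, RCLike.norm_ofReal, abs_of_nonneg (by positivity)]
  rw [e]
  have h : ‖∑ m ∈ Finset.range (N + 1), w ^ m * (β m z : 𝕜)‖ ≤ ((N : ℝ) + 1) * B := by
    refine (norm_sum_le _ _).trans ?_
    have : ∀ m ∈ Finset.range (N + 1), ‖w ^ m * (β m z : 𝕜)‖ ≤ B := by
      intro m _
      rw [norm_mul, norm_pow, hw, one_pow, one_mul, RCLike.norm_ofReal]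
      exact hβ m
    refine (Finset.sum_le_sum this).trans ?_
    simp
  calc ((N : ℝ) + 1)⁻¹ * ‖∑ m ∈ Finset.range (N + 1), w ^ m * (β m z : 𝕜)‖
      ≤ ((N : ℝ) + 1)⁻¹ * (((N : ℝ) + 1) * B) := by
        apply mul_le_mul_of_nonneg_left h (by positivity)
    _ = B := by
        rw [← mul_assoc, inv_mul_cancel₀ (by positivity), one_mul]

theorem av_lim {Z : Type} [Fintype Z] (𝕜 : Type) [RCLike 𝕜] (M : Z → Z → ℝ) (w v : 𝕜)
    (hwv : v * w = 1) (hw : ‖w‖ = 1) (hv : ‖v‖ = 1) (β : ℕ → Z → ℝ) (B : ℝ) (z : Z)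
    (hβ : ∀ m, ∑ z', M z z' * β m z' = β (m + 1) z) (hB : ∀ m, |β m z| ≤ B)
    (φ : ℕ → ℕ) (hφ : Tendsto φ atTop atTop) (h : Z → 𝕜)
    (hh : ∀ z, Tendsto (fun k => av 𝕜 w β (φ k) z) atTop (𝓝 (h z))) :
    ∑ z', (M z z' : 𝕜) * h z' = v * h z := by
  have h1 : Tendsto (fun k => ∑ z', (M z z' : 𝕜) * av 𝕜 w β (φ k) z') atTop
      (𝓝 (∑ z', (M z z' : 𝕜) * h z')) :=
    tendsto_finsetSum _ (fun z' _ => (hh z').const_mul _)
  have h2 : Tendsto (fun k => v * av 𝕜 w β (φ k) z +
      (((φ k : ℕ) : 𝕜) + 1)⁻¹ * (v * (w ^ (φ k + 1) * (β (φ k + 1) z : 𝕜) - (β 0 z : 𝕜))))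
      atTop (𝓝 (v * h z + 0)) := by
    apply ((hh z).const_mul _).add
    rw [tendsto_zero_iff_norm_tendsto_zero]
    have h3 : Tendsto (fun k => ((φ k : ℝ) + 1)⁻¹ * (B + B)) atTop (𝓝 0) := by
      have h4 : Tendsto (fun k => ((φ k : ℝ) + 1)⁻¹) atTop (𝓝 0) := by
        have : Tendsto (fun k => (φ k : ℝ) + 1) atTop atTop :=
          tendsto_atTop_add_const_right _ _ (tendsto_natCast_atTop_atTop.comp hφ)
        exact tendsto_inv_atTop_zero.comp this
      have := h4.mul_const (B + B)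
      rwa [zero_mul] at this
    refine squeeze_zero (fun _ => norm_nonneg _) (fun k => ?_) h3
    rw [norm_mul, norm_inv, norm_mul, hv]
    have e : ‖(((φ k : ℕ) : 𝕜) + 1)‖ = (φ k : ℝ) + 1 := by
      have : (((φ k : ℕ) : 𝕜) + 1) = (((φ k : ℝ) + 1 : ℝ) : 𝕜) := by push_cast; rfl
      rw [this, RCLike.norm_ofReal, abs_of_nonneg (by positivity)]
    rw [e, one_mul]
    apply mul_le_mul_of_nonneg_left _ (by positivity)
    refine (norm_sub_le _ _).trans ?_
    rw [norm_mul, norm_pow, hw, one_pow, one_mul, RCLike.norm_ofReal, RCLike.norm_ofReal]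
    exact add_le_add (hB _) (hB _)
  rw [add_zero] at h2
  have h5 : (fun k => ∑ z', (M z z' : 𝕜) * av 𝕜 w β (φ k) z') =
      (fun k => v * av 𝕜 w β (φ k) z +
      (((φ k : ℕ) : 𝕜) + 1)⁻¹ * (v * (w ^ (φ k + 1) * (β (φ k + 1) z : 𝕜) - (β 0 z : 𝕜)))) := by
    funext k
    exact av_rec 𝕜 M w v hwv β z hβ (φ k)
  rw [h5] at h1
  exact tendsto_nhds_unique h1 h2

/-- A bounded nonnegative orbit of a nonnegative matrix has no rotating functional. -/
theorem limit_system {Z : Type} [Fintype Z] (M : Z → Z → ℝ) (hM : ∀ z z', 0 ≤ M z z')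
    (b : ℕ → Z → ℝ) (hb0 : ∀ m z, 0 ≤ b m z) (B : ℝ) (hB0 : 0 ≤ B) (hB : ∀ m z, b m z ≤ B)
    (hrec : ∀ m z, b (m + 1) z = ∑ z', M z z' * b m z') (lam : Z → ℂ) (om u κ : ℂ)
    (hom : ‖om‖ = 1) (hroot : ∀ n : ℕ, 0 < n → om ^ n ≠ 1) (hu : ‖u‖ = 1) (hκ : κ ≠ 0)
    (hsum : ∀ m, ∑ z, lam z * (b m z : ℂ) = u * om ^ m * κ) : False := by
  have hom0 : om ≠ 0 := by
    intro h; rw [h, norm_zero] at hom; exact zero_ne_one hom
  let w : ℂ := om⁻¹
  have hw : ‖w‖ = 1 := by rw [norm_inv, hom, inv_one]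
  have hwv : om * w = 1 := mul_inv_cancel₀ hom0
  have hbB : ∀ m z, |b m z| ≤ B := fun m z => by rw [abs_of_nonneg (hb0 m z)]; exact hB m z
  have hβrec : ∀ z, ∀ m, ∑ z', M z z' * b m z' = b (m + 1) z := fun z m => (hrec m z).symm
  let X : ℕ → (Z → ℂ) × (Z → ℝ) := fun N => (av ℂ w b N, av ℝ 1 b N)
  have hX : ∀ N, X N ∈ Metric.closedBall (0 : (Z → ℂ) × (Z → ℝ)) B := by
    intro N
    rw [Metric.mem_closedBall, dist_zero_right, Prod.norm_def]
    apply max_le
    · exact (pi_norm_le_iff_of_nonneg hB0).2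
        (fun z => av_bound ℂ w hw b B z (fun m => hbB m z) N)
    · exact (pi_norm_le_iff_of_nonneg hB0).2
        (fun z => av_bound ℝ 1 (by simp) b B z (fun m => hbB m z) N)
  obtain ⟨⟨h, v⟩, _, φ, hφ, hlim⟩ :=
    tendsto_subseq_of_bounded Metric.isBounded_closedBall hX
  rw [nhds_prod_eq] at hlim
  have hl1 : Tendsto (fun k => av ℂ w b (φ k)) atTop (𝓝 h) := hlim.fst
  have hl2 : Tendsto (fun k => av ℝ (1 : ℝ) b (φ k)) atTop (𝓝 v) := hlim.snd
  rw [tendsto_pi_nhds] at hl1 hl2
  have hφ' := hφ.tendsto_atTop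
  have hh0 : ∀ z, h z = 0 := by
    apply maxprin M hM om hom hroot h v
    · intro z
      exact av_lim ℂ M w om hwv hw hom b B z (hβrec z) (fun m => hbB m z) φ hφ' h hl1
    · intro z
      have := av_lim ℝ M 1 1 (by norm_num) (by simp) (by simp) b B z (hβrec z)
        (fun m => hbB m z) φ hφ' v hl2
      rw [one_mul] at this
      exact this
    · intro z
      refine le_of_tendsto_of_tendsto (hl1 z).norm (hl2 z) (Eventually.of_forall fun k => ?_)
      show ‖av ℂ w b (φ k) z‖ ≤ av ℝ (1 : ℝ) b (φ k) z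
      unfold av
      rw [norm_mul, norm_inv]
      have e : ‖((φ k : ℕ) : ℂ) + 1‖ = (φ k : ℝ) + 1 := by
        have : (((φ k : ℕ) : ℂ) + 1) = (((φ k : ℝ) + 1 : ℝ) : ℂ) := by push_cast; rfl
        rw [this, Complex.norm_real, Real.norm_eq_abs, abs_of_nonneg (by positivity)]
      rw [e]
      apply mul_le_mul_of_nonneg_left _ (by positivity)
      refine (norm_sum_le _ _).trans (Finset.sum_le_sum fun m _ => ?_)
      rw [norm_mul, norm_pow, hw, one_pow, one_mul, one_mul]
      rw [RCLike.norm_ofReal, abs_of_nonneg (hb0 m z)]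
      exact le_refl _
  have hlimf : Tendsto (fun k => ∑ z, lam z * av ℂ w b (φ k) z) atTop
      (𝓝 (∑ z, lam z * h z)) :=
    tendsto_finsetSum _ (fun z _ => (hl1 z).const_mul _)
  have hz0 : ∑ z, lam z * h z = 0 := by
    apply Finset.sum_eq_zero
    intro z _
    rw [hh0 z, mul_zero]
  rw [hz0] at hlimf
  have hval : ∀ N, ∑ z, lam z * av ℂ w b N z = u * κ := by
    intro N
    have e1 : ∀ z, lam z * av ℂ w b N z =
        ∑ m ∈ Finset.range (N + 1), ((N : ℂ) + 1)⁻¹ * (w ^ m * (lam z * (b m z : ℂ))) := by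
      intro z
      unfold av
      rw [Finset.mul_sum, Finset.mul_sum]
      apply Finset.sum_congr rfl
      intro m _
      simp only [Complex.coe_algebraMap]
      ring
    rw [Finset.sum_congr rfl (fun z _ => e1 z), Finset.sum_comm]
    have e2 : ∀ m ∈ Finset.range (N + 1), ∑ z, ((N : ℂ) + 1)⁻¹ * (w ^ m *
          (lam z * (b m z : ℂ))) = ((N : ℂ) + 1)⁻¹ * (u * κ) := by
      intro m _
      rw [← Finset.mul_sum, ← Finset.mul_sum, hsum m]
      have : w ^ m * om ^ m = 1 := by
        rw [← mul_pow, mul_comm, hwv, one_pow]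
      calc ((N : ℂ) + 1)⁻¹ * (w ^ m * (u * om ^ m * κ)) =
          ((N : ℂ) + 1)⁻¹ * ((w ^ m * om ^ m) * (u * κ)) := by ring
        _ = _ := by rw [this]; ring
    rw [Finset.sum_congr rfl e2, Finset.sum_const, Finset.card_range, nsmul_eq_mul, ← mul_assoc]
    have hN : ((N : ℂ) + 1) ≠ 0 := by exact_mod_cast Nat.succ_ne_zero N
    push_cast
    rw [mul_inv_cancel₀ hN, one_mul]
  have hc : (fun k => ∑ z, lam z * av ℂ w b (φ k) z) = fun _ => u * κ := by
    funext k; exact hval (φ k)
  rw [hc] at hlimf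
  have h1 := tendsto_nhds_unique hlimf tendsto_const_nhds
  have hu0 : u ≠ 0 := by
    intro h; rw [h, norm_zero] at hu; exact zero_ne_one hu
  exact mul_ne_zero hu0 hκ h1.symm

/-- Bounded sequences converge along an ultrafilter. -/
theorem ulim {E : Type} [NormedAddCommGroup E] [ProperSpace E] (U : Ultrafilter ℕ) (f : ℕ → E)
    (B : ℝ) (h : ∀ᶠ i in (U : Filter ℕ), ‖f i‖ ≤ B) : ∃ x, Tendsto f (U : Filter ℕ) (𝓝 x) := by
  have hc : IsCompact (Metric.closedBall (0 : E) B) := isCompact_closedBall 0 B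
  obtain ⟨x, -, hx⟩ := hc.ultrafilter_le_nhds (U.map f) (by
    rw [le_principal_iff]
    show ∀ᶠ i in (U : Filter ℕ), f i ∈ Metric.closedBall (0 : E) B
    filter_upwards [h] with i hi
    rw [mem_closedBall_zero_iff]
    exact hi)
  exact ⟨x, hx⟩

theorem pf_lemma (Z : Type) [Fintype Z] (F d : ℝ) (om κ : ℂ) (hd : 0 < d) (hom : ‖om‖ = 1)
    (hroot : ∀ n : ℕ, 0 < n → om ^ n ≠ 1) (hκ : κ ≠ 0) :
    ∃ (M0 : ℕ) (ε : ℝ), 0 < ε ∧
      ∀ (M : Z → Z → ℝ) (K : ℕ → Z → ℝ) (L : Z → ℝ) (Λ : Z → ℂ) (u : ℂ),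
        (∀ z z', 0 ≤ M z z') → (∀ m z, 0 ≤ K m z) → (∀ z, 0 ≤ L z) →
        (∀ m z, K (m + 1) z = ∑ z', M z z' * K m z') →
        (∀ z, ‖Λ z‖ ≤ F * L z) → ‖u‖ = 1 →
        (0 < ∑ z, L z * K 0 z) →
        (∀ m, m < M0 →
          |(∑ z, L z * K (m + 1) z) - d * ∑ z, L z * K m z| ≤ ε * ∑ z, L z * K m z) →
        (∀ m, m ≤ M0 →
          ‖(∑ z, Λ z * (K m z : ℂ)) - u * om ^ m * κ * ((∑ z, L z * K m z : ℝ) : ℂ)‖
            ≤ ε * ∑ z, L z * K m z) → False := by
  classical
  by_contra hcon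
  have H : ∀ i : ℕ, ∃ (M : Z → Z → ℝ) (K : ℕ → Z → ℝ) (L : Z → ℝ) (Λ : Z → ℂ) (u : ℂ),
        (∀ z z', 0 ≤ M z z') ∧ (∀ m z, 0 ≤ K m z) ∧ (∀ z, 0 ≤ L z) ∧
        (∀ m z, K (m + 1) z = ∑ z', M z z' * K m z') ∧
        (∀ z, ‖Λ z‖ ≤ F * L z) ∧ ‖u‖ = 1 ∧
        (0 < ∑ z, L z * K 0 z) ∧
        (∀ m, m < i →
          |(∑ z, L z * K (m + 1) z) - d * ∑ z, L z * K m z|
            ≤ (1 / ((i : ℝ) + 1)) * ∑ z, L z * K m z) ∧
        (∀ m, m ≤ i →
          ‖(∑ z, Λ z * (K m z : ℂ)) - u * om ^ m * κ * ((∑ z, L z * K m z : ℝ) : ℂ)‖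
            ≤ (1 / ((i : ℝ) + 1)) * ∑ z, L z * K m z) := by
    intro i
    by_contra hc
    apply hcon
    refine ⟨i, 1 / ((i : ℝ) + 1), by positivity, ?_⟩
    intro M K L Λ u h1 h2 h3 h4 h5 h6 h7 h8 h9
    exact hc ⟨M, K, L, Λ, u, h1, h2, h3, h4, h5, h6, h7, h8, h9⟩
  choose M K L Λ u hM hK hL hrec hΛ hu hpos hN hS using H
  let U : Ultrafilter ℕ := hyperfilter ℕ
  have hUtop : (U : Filter ℕ) ≤ atTop := Nat.hyperfilter_le_atTop
  have heps : Tendsto (fun i : ℕ => 1 / ((i : ℝ) + 1)) (U : Filter ℕ) (𝓝 0) :=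
    tendsto_one_div_add_atTop_nhds_zero_nat.mono_left hUtop
  have hge : ∀ m : ℕ, ∀ᶠ i in (U : Filter ℕ), m < i := fun m => hUtop (eventually_gt_atTop m)
  let N : ℕ → ℕ → ℝ := fun i m => ∑ z, L i z * K i m z
  have hN0 : ∀ i, 0 < N i 0 := hpos
  have hNnn : ∀ i m, 0 ≤ N i m := fun i m =>
    Finset.sum_nonneg fun z _ => mul_nonneg (hL i z) (hK i m z)
  have hNlim : ∀ m, Tendsto (fun i => N i m / (d ^ m * N i 0)) (U : Filter ℕ) (𝓝 1) := by
    intro m
    induction m with
    | zero =>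
      have : (fun i => N i 0 / (d ^ 0 * N i 0)) = fun _ => 1 := by
        funext i
        rw [pow_zero, one_mul, div_self (hN0 i).ne']
      rw [this]
      exact tendsto_const_nhds
    | succ m ih =>
      have h1 : Tendsto (fun i => N i (m + 1) / (d ^ (m + 1) * N i 0) - N i m / (d ^ m * N i 0))
          (U : Filter ℕ) (𝓝 0) := by
        have h2 : Tendsto (fun i : ℕ => 1 / ((i : ℝ) + 1) * (N i m / (d ^ m * N i 0)) / d)
            (U : Filter ℕ) (𝓝 (0 * 1 / d)) := (heps.mul ih).div_const d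
        rw [zero_mul, zero_div] at h2
        refine squeeze_zero_norm' ?_ h2
        filter_upwards [hge m] with i hi
        have h3 := hN i m hi
        have h4 : N i (m + 1) / (d ^ (m + 1) * N i 0) - N i m / (d ^ m * N i 0) =
            (N i (m + 1) - d * N i m) / (d ^ (m + 1) * N i 0) := by
          have := (hN0 i).ne'
          field_simp
          ring
        rw [h4, norm_div, Real.norm_eq_abs, Real.norm_eq_abs,
          abs_of_pos (mul_pos (pow_pos hd _) (hN0 i))]
        have h5 : 1 / ((i : ℝ) + 1) * (N i m / (d ^ m * N i 0)) / d =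
            (1 / ((i : ℝ) + 1) * N i m) / (d ^ (m + 1) * N i 0) := by
          have := (hN0 i).ne'
          field_simp
          ring
        rw [h5]
        exact div_le_div_of_nonneg_right h3 (mul_pos (pow_pos hd _) (hN0 i)).le
      have := h1.add ih
      simpa using this
  -- left vectors
  let Lp : ℕ → ℕ → Z → ℝ := fun i j => Nat.rec (L i) (fun _ v z' => ∑ z, v z * M i z z') j
  have hLp0 : ∀ i z, Lp i 0 z = L i z := fun i z => rfl
  have hLps : ∀ i j z', Lp i (j + 1) z' = ∑ z, Lp i j z * M i z z' := fun i j z' => rfl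
  have hLpnn : ∀ i j z, 0 ≤ Lp i j z := by
    intro i j
    induction j with
    | zero => exact fun z => hL i z
    | succ j ih =>
      intro z
      rw [hLps]
      exact Finset.sum_nonneg fun z' _ => mul_nonneg (ih z') (hM i z' z)
  have hLpK : ∀ i j m, ∑ z, Lp i j z * K i m z = N i (j + m) := by
    intro i j
    induction j with
    | zero => intro m; rw [zero_add]; rfl
    | succ j ih =>
      intro m
      have h1 : ∀ z', Lp i (j + 1) z' * K i m z' = ∑ z, Lp i j z * (M i z z' * K i m z') := by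
        intro z'
        rw [hLps, Finset.sum_mul]
        exact Finset.sum_congr rfl fun z _ => by ring
      rw [Finset.sum_congr rfl fun z' _ => h1 z', Finset.sum_comm]
      have h2 : ∀ z, ∑ z', Lp i j z * (M i z z' * K i m z') = Lp i j z * K i (m + 1) z := by
        intro z
        rw [hrec, Finset.mul_sum]
      rw [Finset.sum_congr rfl fun z _ => h2 z, ih (m + 1)]
      congr 1
      omega
  let a : ℕ → ℕ → ℕ → Z → ℝ := fun i j m z => Lp i j z * K i m z / (d ^ (j + m) * N i 0)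
  have hann : ∀ i j m z, 0 ≤ a i j m z := fun i j m z =>
    div_nonneg (mul_nonneg (hLpnn i j z) (hK i m z)) (mul_pos (pow_pos hd _) (hN0 i)).le
  have hasum : ∀ i j m, ∑ z, a i j m z = N i (j + m) / (d ^ (j + m) * N i 0) := by
    intro i j m
    simp only [a]
    rw [← Finset.sum_div, hLpK]
  have hale : ∀ i j m z, a i j m z ≤ N i (j + m) / (d ^ (j + m) * N i 0) := by
    intro i j m z
    rw [← hasum]
    exact Finset.single_le_sum (f := fun z => a i j m z) (fun z _ => hann i j m z)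
      (Finset.mem_univ z)
  have hAex : ∀ j m z, ∃ x, Tendsto (fun i => a i j m z) (U : Filter ℕ) (𝓝 x) := by
    intro j m z
    apply ulim U _ 2
    filter_upwards [(hNlim (j + m)).eventually_lt_const (show (1 : ℝ) < 2 by norm_num)] with i hi
    rw [Real.norm_eq_abs, abs_of_nonneg (hann i j m z)]
    exact (hale i j m z).trans hi.le
  choose A hA using hAex
  have hAnn : ∀ j m z, 0 ≤ A j m z := fun j m z =>
    ge_of_tendsto (hA j m z) (Eventually.of_forall fun i => hann i j m z)
  have hAle : ∀ j m z, A j m z ≤ 1 := fun j m z =>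
    le_of_tendsto_of_tendsto (hA j m z) (hNlim (j + m)) (Eventually.of_forall fun i => hale i j m z)
  -- the chosen pairs
  have hpick : ∀ z, ∃ p : ℕ × ℕ, (0 < A p.1 p.2 z) ∨ (∀ j m, A j m z = 0) := by
    intro z
    by_cases h : ∃ p : ℕ × ℕ, 0 < A p.1 p.2 z
    · obtain ⟨p, hp⟩ := h
      exact ⟨p, Or.inl hp⟩
    · refine ⟨(0, 0), Or.inr fun j m => ?_⟩
      push Not at h
      exact le_antisymm (h (j, m)) (hAnn j m z)
  choose p hp using hpick
  let c : Z → ℝ := fun z => A (p z).1 (p z).2 z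
  have hinact : ∀ z, ¬ 0 < c z → ∀ j m, A j m z = 0 := fun z hz =>
    (hp z).resolve_left hz
  have hcnn : ∀ z, 0 ≤ c z := fun z => hAnn _ _ _
  let kap : ℕ → Z → ℝ := fun i z => K i (p z).2 z / d ^ (p z).2
  have hkappos : ∀ z, 0 < c z → ∀ᶠ i in (U : Filter ℕ), 0 < kap i z ∧ 0 < Lp i (p z).1 z := by
    intro z hz
    filter_upwards [(hA (p z).1 (p z).2 z).eventually_const_lt hz] with i hi
    have h1 : 0 < Lp i (p z).1 z * K i (p z).2 z := by
      by_contra hneg
      have h2 : Lp i (p z).1 z * K i (p z).2 z = 0 :=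
        le_antisymm (not_lt.1 hneg) (mul_nonneg (hLpnn _ _ _) (hK _ _ _))
      simp only [a] at hi
      rw [h2, zero_div] at hi
      exact lt_irrefl _ hi
    have h3 : 0 < K i (p z).2 z := by
      rcases (hK i (p z).2 z).lt_or_eq with h | h
      · exact h
      · rw [← h, mul_zero] at h1; exact absurd h1 (lt_irrefl _)
    have h4 : 0 < Lp i (p z).1 z := by
      rcases (hLpnn i (p z).1 z).lt_or_eq with h | h
      · exact h
      · rw [← h, zero_mul] at h1; exact absurd h1 (lt_irrefl _)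
    exact ⟨div_pos h3 (pow_pos hd _), h4⟩
  let b : ℕ → Z → ℝ := fun m z => A (p z).1 m z / c z
  let bi : ℕ → ℕ → Z → ℝ := fun i m z => K i m z / (d ^ m * kap i z)
  have hbi : ∀ z, 0 < c z → ∀ m, Tendsto (fun i => bi i m z) (U : Filter ℕ) (𝓝 (b m z)) := by
    intro z hz m
    have h1 : Tendsto (fun i => a i (p z).1 m z / a i (p z).1 (p z).2 z) (U : Filter ℕ)
        (𝓝 (b m z)) := (hA _ _ _).div (hA _ _ _) hz.ne'
    refine h1.congr' ?_
    filter_upwards [hkappos z hz] with i hi
    have hk : K i (p z).2 z ≠ 0 := by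
      intro h0
      have := hi.1
      simp only [kap] at this
      rw [h0, zero_div] at this
      exact lt_irrefl _ this
    have hl := hi.2.ne'
    have hn := (hN0 i).ne'
    have hd' := hd.ne'
    simp only [a, bi, kap]
    rw [pow_add, pow_add]
    field_simp
  have hbnn : ∀ m z, 0 ≤ b m z := fun m z => div_nonneg (hAnn _ _ _) (hcnn z)
  -- transition limits
  have hMex : ∀ z z', ∃ x, 0 ≤ x ∧ ((0 < c z ∧ 0 < c z') → Tendsto (fun i => M i z z' * kap i z' /
      (d * kap i z)) (U : Filter ℕ) (𝓝 x)) := by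
    intro z z'
    by_cases hzz : 0 < c z ∧ 0 < c z'
    · obtain ⟨hz, hz'⟩ := hzz
      obtain ⟨x, hx⟩ := ulim U (fun i => M i z z' * kap i z' / (d * kap i z))
        (b ((p z').2 + 1) z + 1) (by
          filter_upwards [(hbi z hz ((p z').2 + 1)).eventually_lt_const
            (show b ((p z').2 + 1) z < b ((p z').2 + 1) z + 1 by linarith),
            hkappos z hz, hkappos z' hz'] with i hi hk hk'
          have h0 : 0 ≤ M i z z' * kap i z' / (d * kap i z) :=
            div_nonneg (mul_nonneg (hM _ _ _) hk'.1.le) (mul_pos hd hk.1).le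
          rw [Real.norm_eq_abs, abs_of_nonneg h0]
          refine le_trans ?_ hi.le
          simp only [bi]
          rw [hrec]
          have h1 : M i z z' * K i (p z').2 z' ≤ ∑ z'', M i z z'' * K i (p z').2 z'' :=
            Finset.single_le_sum (f := fun z'' => M i z z'' * K i (p z').2 z'')
              (fun z'' _ => mul_nonneg (hM _ _ _) (hK _ _ _)) (Finset.mem_univ z')
          have h2 : M i z z' * kap i z' / (d * kap i z) =
              M i z z' * K i (p z').2 z' / (d ^ ((p z').2 + 1) * kap i z) := by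
            have := hk.1.ne'
            have hd' := hd.ne'
            show M i z z' * (K i (p z').2 z' / d ^ (p z').2) / (d * kap i z) = _
            rw [pow_succ]
            field_simp
          rw [h2]
          exact div_le_div_of_nonneg_right h1 (mul_pos (pow_pos hd _) hk.1).le)
      refine ⟨x, ?_, fun _ => hx⟩
      refine ge_of_tendsto hx ?_
      filter_upwards [hkappos z hz, hkappos z' hz'] with i hk hk'
      exact div_nonneg (mul_nonneg (hM _ _ _) hk'.1.le) (mul_pos hd hk.1).le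
    · exact ⟨0, le_refl _, fun h => absurd h hzz⟩
  choose Mh0 hMh0 hMh using hMex
  let Mh : Z → Z → ℝ := fun z z' => if 0 < c z ∧ 0 < c z' then Mh0 z z' else 0
  have hMhnn : ∀ z z', 0 ≤ Mh z z' := by
    intro z z'
    simp only [Mh]
    split
    · exact hMh0 z z'
    · exact le_refl _
  have hbinact : ∀ z, ¬ 0 < c z → ∀ m, b m z = 0 := by
    intro z hz m
    simp only [b]
    rw [hinact z hz _ m, zero_div]
  have hbrec : ∀ m z, b (m + 1) z = ∑ z', Mh z z' * b m z' := by
    intro m z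
    by_cases hz : 0 < c z
    · have h1 : Tendsto (fun i => ∑ z', M i z z' * K i m z' / (d ^ (m + 1) * kap i z))
          (U : Filter ℕ) (𝓝 (∑ z', Mh z z' * b m z')) := by
        refine tendsto_finsetSum _ fun z' _ => ?_
        by_cases hz' : 0 < c z'
        · have h2 := (hMh z z' ⟨hz, hz'⟩).mul (hbi z' hz' m)
          have h3 : Mh z z' = Mh0 z z' := if_pos ⟨hz, hz'⟩
          rw [h3]
          refine h2.congr' ?_
          filter_upwards [hkappos z hz, hkappos z' hz'] with i hk hk'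
          have e1 := hk.1.ne'
          have e2 := hk'.1.ne'
          have hd' := hd.ne'
          simp only [bi]
          rw [pow_succ]
          field_simp
        · rw [hbinact z' hz' m, mul_zero]
          have h2 : Tendsto (fun i => a i ((p z).1 + 1) m z' / a i (p z).1 (p z).2 z)
              (U : Filter ℕ) (𝓝 (0 / c z)) := by
            have := (hA ((p z).1 + 1) m z').div (hA (p z).1 (p z).2 z) hz.ne'
            rwa [hinact z' hz' ((p z).1 + 1) m] at this
          rw [zero_div] at h2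
          refine squeeze_zero' ?_ ?_ h2
          · filter_upwards [hkappos z hz] with i hk
            exact div_nonneg (mul_nonneg (hM _ _ _) (hK _ _ _)) (mul_pos (pow_pos hd _) hk.1).le
          · filter_upwards [hkappos z hz] with i hk
            have hkK : 0 < K i (p z).2 z := by
              have := hk.1
              simp only [kap] at this
              rcases (hK i (p z).2 z).lt_or_eq with h | h
              · exact h
              · rw [← h, zero_div] at this; exact absurd this (lt_irrefl _)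
            have h4 : Lp i (p z).1 z * M i z z' ≤ Lp i ((p z).1 + 1) z' := by
              rw [hLps]
              exact Finset.single_le_sum (f := fun y => Lp i (p z).1 y * M i y z')
                (fun y _ => mul_nonneg (hLpnn _ _ _) (hM _ _ _)) (Finset.mem_univ z)
            have h5 : M i z z' * K i m z' / (d ^ (m + 1) * kap i z) =
                (Lp i (p z).1 z * M i z z') * K i m z' * d ^ (p z).2 /
                  (d ^ (m + 1) * Lp i (p z).1 z * K i (p z).2 z) := by
              have e1 := hk.2.ne'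
              have e2 := hkK.ne'
              have hd' := hd.ne'
              simp only [kap]
              field_simp
            have h6 : a i ((p z).1 + 1) m z' / a i (p z).1 (p z).2 z =
                Lp i ((p z).1 + 1) z' * K i m z' * d ^ (p z).2 /
                  (d ^ (m + 1) * Lp i (p z).1 z * K i (p z).2 z) := by
              have e1 := hk.2.ne'
              have e2 := hkK.ne'
              have hd' := hd.ne'
              have e3 := (hN0 i).ne'
              simp only [a]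
              rw [show (p z).1 + 1 + m = (p z).1 + (m + 1) by ring, pow_add d (p z).1 (m + 1),
                pow_add d (p z).1 (p z).2]
              field_simp
            rw [h5, h6]
            apply div_le_div_of_nonneg_right _ (mul_pos (mul_pos (pow_pos hd _) hk.2) hkK).le
            apply mul_le_mul_of_nonneg_right _ (pow_pos hd _).le
            exact mul_le_mul_of_nonneg_right h4 (hK _ _ _)
      have h2 : (fun i => ∑ z', M i z z' * K i m z' / (d ^ (m + 1) * kap i z)) =
          fun i => bi i (m + 1) z := by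
        funext i
        simp only [bi]
        rw [← Finset.sum_div, hrec]
      rw [h2] at h1
      exact tendsto_nhds_unique (hbi z hz (m + 1)) h1
    · rw [hbinact z hz (m + 1)]
      symm
      apply Finset.sum_eq_zero
      intro z' _
      have : Mh z z' = 0 := if_neg fun h => hz h.1
      rw [this, zero_mul]
  -- bound
  have hbb : ∀ m z, b m z ≤ ∑ z', (c z')⁻¹ := by
    intro m z
    have h1 : b m z ≤ (c z)⁻¹ := by
      by_cases hz : 0 < c z
      · simp only [b]
        rw [div_eq_mul_inv]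
        calc A (p z).1 m z * (c z)⁻¹ ≤ 1 * (c z)⁻¹ :=
              mul_le_mul_of_nonneg_right (hAle _ _ _) (inv_nonneg.2 (hcnn z))
          _ = _ := one_mul _
      · rw [hbinact z hz m]
        exact inv_nonneg.2 (hcnn z)
    exact h1.trans (Finset.single_le_sum (f := fun z' => (c z')⁻¹)
      (fun z' _ => inv_nonneg.2 (hcnn z')) (Finset.mem_univ z))
  -- functional
  have hlex : ∀ z, ∃ x : ℂ, 0 < c z →
      Tendsto (fun i => Λ i z * (kap i z : ℂ) / (N i 0 : ℂ)) (U : Filter ℕ) (𝓝 x) := by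
    intro z
    by_cases hz : 0 < c z
    · obtain ⟨x, hx⟩ := ulim U (fun i => Λ i z * (kap i z : ℂ) / (N i 0 : ℂ))
        (F * A 0 (p z).2 z + 1) (by
          have h1 : Tendsto (fun i => F * a i 0 (p z).2 z) (U : Filter ℕ)
            (𝓝 (F * A 0 (p z).2 z)) := (hA 0 (p z).2 z).const_mul F
          filter_upwards [h1.eventually_lt_const
            (show F * A 0 (p z).2 z < F * A 0 (p z).2 z + 1 by linarith), hkappos z hz] with i hi hk
          refine le_trans ?_ hi.le
          rw [norm_div, norm_mul, Complex.norm_real, Complex.norm_real, Real.norm_eq_abs,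
            Real.norm_eq_abs, abs_of_pos (hN0 i), abs_of_pos hk.1]
          have h2 : F * a i 0 (p z).2 z = (F * L i z) * kap i z / N i 0 := by
            have hd' := hd.ne'
            have e3 := (hN0 i).ne'
            simp only [a, kap, hLp0, zero_add]
            field_simp
          rw [h2]
          apply div_le_div_of_nonneg_right _ (hN0 i).le
          exact mul_le_mul_of_nonneg_right (hΛ i z) hk.1.le)
      exact ⟨x, fun _ => hx⟩
    · exact ⟨0, fun h => absurd h hz⟩
  choose lam hlam using hlex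
  obtain ⟨us, hus⟩ := ulim U u 1 (Eventually.of_forall fun i => (hu i).le)
  have husn : ‖us‖ = 1 := by
    have h1 := hus.norm
    have h2 : (fun i => ‖u i‖) = fun _ => (1 : ℝ) := by funext i; exact hu i
    rw [h2] at h1
    exact (tendsto_nhds_unique h1 tendsto_const_nhds)
  refine limit_system Mh hMhnn b hbnn (∑ z', (c z')⁻¹)
    (Finset.sum_nonneg fun z' _ => inv_nonneg.2 (hcnn z')) hbb hbrec lam om us κ hom hroot husn hκ ?_
  intro m
  have h1 : Tendsto (fun i => ∑ z, Λ i z * (K i m z : ℂ) / ((d ^ m * N i 0 : ℝ) : ℂ))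
      (U : Filter ℕ) (𝓝 (∑ z, lam z * (b m z : ℂ))) := by
    refine tendsto_finsetSum _ fun z _ => ?_
    by_cases hz : 0 < c z
    · have h2 := (hlam z hz).mul ((Complex.continuous_ofReal.tendsto _).comp (hbi z hz m))
      refine h2.congr' ?_
      filter_upwards [hkappos z hz] with i hk
      have e1 : (kap i z : ℂ) ≠ 0 := by exact_mod_cast hk.1.ne'
      have hd' : (d : ℂ) ≠ 0 := by exact_mod_cast hd.ne'
      have e3 : (N i 0 : ℂ) ≠ 0 := by exact_mod_cast (hN0 i).ne'
      simp only [bi, Function.comp]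
      push_cast
      field_simp
    · rw [hbinact z hz m, Complex.ofReal_zero, mul_zero]
      have h2 : Tendsto (fun i => F * a i 0 m z) (U : Filter ℕ) (𝓝 (F * 0)) := by
        have := (hA 0 m z).const_mul F
        rwa [hinact z hz 0 m] at this
      rw [mul_zero] at h2
      refine squeeze_zero_norm' (Eventually.of_forall fun i => ?_) h2
      rw [norm_div, norm_mul, Complex.norm_real, Complex.norm_real, Real.norm_eq_abs,
        Real.norm_eq_abs, abs_of_pos (mul_pos (pow_pos hd m) (hN0 i)), abs_of_nonneg (hK i m z)]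
      have h3 : F * a i 0 m z = (F * L i z) * K i m z / (d ^ m * N i 0) := by
        simp only [a, hLp0, zero_add]
        ring
      rw [h3]
      apply div_le_div_of_nonneg_right _ (mul_pos (pow_pos hd m) (hN0 i)).le
      exact mul_le_mul_of_nonneg_right (hΛ i z) (hK i m z)
  have h2 : Tendsto (fun i => ∑ z, Λ i z * (K i m z : ℂ) / ((d ^ m * N i 0 : ℝ) : ℂ))
      (U : Filter ℕ) (𝓝 (us * om ^ m * κ)) := by
    have h3 : Tendsto (fun i => u i * om ^ m * κ * ((N i m / (d ^ m * N i 0) : ℝ) : ℂ))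
        (U : Filter ℕ) (𝓝 (us * om ^ m * κ * ((1 : ℝ) : ℂ))) :=
      ((hus.mul_const _).mul_const _).mul ((Complex.continuous_ofReal.tendsto _).comp (hNlim m))
    rw [Complex.ofReal_one, mul_one] at h3
    have h4 : Tendsto (fun i => ∑ z, Λ i z * (K i m z : ℂ) / ((d ^ m * N i 0 : ℝ) : ℂ) -
        u i * om ^ m * κ * ((N i m / (d ^ m * N i 0) : ℝ) : ℂ)) (U : Filter ℕ) (𝓝 0) := by
      have h5 : Tendsto (fun i : ℕ => 1 / ((i : ℝ) + 1) * (N i m / (d ^ m * N i 0)))
            (U : Filter ℕ) (𝓝 (0 * 1)) := heps.mul (hNlim m)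
      rw [zero_mul] at h5
      refine squeeze_zero_norm' ?_ h5
      filter_upwards [hge m] with i hi
      have h6 := hS i m hi.le
      have h7 : ∑ z, Λ i z * (K i m z : ℂ) / ((d ^ m * N i 0 : ℝ) : ℂ) -
          u i * om ^ m * κ * ((N i m / (d ^ m * N i 0) : ℝ) : ℂ) =
          ((∑ z, Λ i z * (K i m z : ℂ)) - u i * om ^ m * κ * ((N i m : ℝ) : ℂ)) /
            ((d ^ m * N i 0 : ℝ) : ℂ) := by
        rw [← Finset.sum_div, sub_div]
        congr 1
        push_cast
        ring
      rw [h7, norm_div, Complex.norm_real, Real.norm_eq_abs,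
        abs_of_pos (mul_pos (pow_pos hd m) (hN0 i)), ← mul_div_assoc]
      exact div_le_div_of_nonneg_right h6 (mul_pos (pow_pos hd m) (hN0 i)).le
    have := h4.add h3
    simpa using this
  exact tendsto_nhds_unique h1 h2

end Pool.Agent.TH557.J615
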