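import Pool.Agent.TH598.GV.Defs2

/-!
# Some alternating matrix of the hyperplane with kernel vector `e₁` has `ω_{e₁} ≠ 0`
-/

set_option autoImplicit false

namespace Pool.Agent.TH557.J5807

open Finset Pool.Agent.TH598.GV
open scoped ComplexConjugate

/-- the sign attached to a bit -/
def sg (s : Bool) : ℤ := if s then -1 else 1

theorem sg_sq (s : Bool) : sg s * sg s = 1 := by cases s <;> rfl

section general

variable {B : Type} [Fintype B] [DecidableEq B]

/-- the terms of the expansion are zero or one -/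
theorem term_eq (h : B → B × Bool → B × Bool → ℂ)
    (hz : ∀ b i j, h b i j ≠ 0 → i.1 = j.1 ∧ j.2 = !i.2 ∧ h b i j = (sg i.2 : ℂ))
    (σ : Equiv.Perm (B × Bool))
    (hne : ∏ b : B, h b (σ (b, false)) (σ (b, true)) ≠ 0) :
    cs σ * ∏ b : B, h b (σ (b, false)) (σ (b, true)) = 1 := by
  have h1 : ∀ b, h b (σ (b, false)) (σ (b, true)) ≠ 0 := fun b =>
    prod_ne_zero_iff.1 hne b (mem_univ b)
  have h2 := fun b => hz b _ _ (h1 b)
  let π : B → B := fun b => (σ (b, false)).1
  let ε : B → Bool := fun b => (σ (b, false)).2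
  have hf : ∀ b, σ (b, false) = (π b, ε b) := fun b => rfl
  have ht : ∀ b, σ (b, true) = (π b, !ε b) := fun b =>
    Prod.ext (h2 b).1.symm (h2 b).2.1
  have hinj : Function.Injective π := by
    intro b b' hb
    by_cases he : ε b' = ε b
    · have h3 : σ (b, false) = σ (b', false) := by rw [hf, hf, hb, he]
      exact (Prod.ext_iff.1 (σ.injective h3)).1
    · have h3 : σ (b, true) = σ (b', false) := by
        rw [hf, ht, hb]
        have : ε b' = !ε b := by
          revert he
          cases ε b' <;> cases ε b <;> simp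
        rw [this]
      exact (Prod.ext_iff.1 (σ.injective h3)).1
  let π' : Equiv.Perm B := Equiv.ofBijective π (Finite.injective_iff_bijective.1 hinj)
  have hσ : σ = (Equiv.prodCongrLeft (fun _ : Bool => π')) *
      (Equiv.prodCongrRight (fun b => if ε b then Equiv.swap false true else 1)) := by
    ext1 x
    obtain ⟨b, s⟩ := x
    rw [Equiv.Perm.mul_apply, Equiv.prodCongrRight_apply, Equiv.prodCongrLeft_apply]
    cases s
    · rw [hf]
      cases hE : ε b
      · simp [π']
      · simp [π']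
    · rw [ht]
      cases hE : ε b
      · simp [π']
      · simp [π']
  have hs : (Equiv.Perm.sign σ : ℤ) = ∏ b, sg (ε b) := by
    rw [hσ, map_mul, Equiv.Perm.sign_prodCongrLeft, Equiv.Perm.sign_prodCongrRight]
    rw [Fintype.prod_bool, ← sq, Int.units_sq, one_mul, Units.coe_prod]
    refine prod_congr rfl fun b _ => ?_
    unfold sg
    split_ifs with hE
    · rw [Equiv.Perm.sign_swap (by decide)]
      rfl
    · simp
  have hp : ∏ b : B, h b (σ (b, false)) (σ (b, true)) = ((∏ b, sg (ε b) : ℤ) : ℂ) := by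
    push_cast
    exact prod_congr rfl fun b _ => (h2 b).2.2
  rw [hp]
  unfold cs
  rw [hs, ← Int.cast_mul, ← prod_mul_distrib]
  simp [sg_sq]

theorem pp_ne (h : B → B × Bool → B × Bool → ℂ)
    (hz : ∀ b i j, h b i j ≠ 0 → i.1 = j.1 ∧ j.2 = !i.2 ∧ h b i j = (sg i.2 : ℂ))
    (h1 : ∀ b, h b (b, false) (b, true) ≠ 0) : PP h ≠ 0 := by
  have h2 : ∀ σ : Equiv.Perm (B × Bool),
      0 ≤ (cs σ * ∏ b : B, h b (σ (b, false)) (σ (b, true))).re := by
    intro σ
    by_cases hne : ∏ b : B, h b (σ (b, false)) (σ (b, true)) = 0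
    · rw [hne, mul_zero, Complex.zero_re]
    · rw [term_eq h hz σ hne, Complex.one_re]
      exact zero_le_one
  have h3 : (cs (1 : Equiv.Perm (B × Bool)) * ∏ b : B, h b ((1 : Equiv.Perm (B × Bool)) (b, false))
      ((1 : Equiv.Perm (B × Bool)) (b, true))).re = 1 := by
    rw [term_eq h hz 1 (prod_ne_zero_iff.2 fun b _ => h1 b), Complex.one_re]
  have h4 : (1 : ℝ) ≤ (PP h).re := by
    unfold PP
    rw [Complex.re_sum, ← h3]
    exact single_le_sum (f := fun σ : Equiv.Perm (B × Bool) =>
      (cs σ * ∏ b : B, h b (σ (b, false)) (σ (b, true))).re) (fun σ _ => h2 σ) (mem_univ 1)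
  intro h5
  rw [h5, Complex.zero_re] at h4
  linarith

end general

/-- the pairs of the last blocks -/
def Q {k : ℕ} (i j : Ix k) : Prop := ∃ a : Fin k, i = (a.succ, false) ∧ j = (a.succ, true)

open Classical in
theorem sum_eq {k : ℕ} (i j : Ix k) :
    (∑ p : Pr k, (if p.1.1.1 = p.1.2.1 then (1 : ℂ) else 0) *
      (if (i, j) = pr (Sum.inr p) then 1 else 0)) = if Q i j then 1 else 0 := by
  split_ifs with hQ
  · obtain ⟨a, rfl, rfl⟩ := hQ
    have hp0 : ps ((a, false) : K k) < ps ((a, true) : K k) := by simp [ps]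
    rw [sum_eq_single (⟨((a, false), (a, true)), hp0⟩ : Pr k)]
    · simp [pr, Pool.Agent.TH598.GV.em]
    · rintro ⟨⟨⟨c, s⟩, ⟨d, t⟩⟩, hp⟩ _ hne
      rw [if_neg (c := ((a.succ, false), (a.succ, true)) = pr _), mul_zero]
      intro h
      apply hne
      simp only [pr, Pool.Agent.TH598.GV.em, Prod.mk.injEq, Fin.succ_inj] at h
      obtain ⟨⟨rfl, rfl⟩, rfl, rfl⟩ := h
      rfl
    · intro h
      exact absurd (mem_univ _) h
  · refine sum_eq_zero ?_
    rintro ⟨⟨⟨c, s⟩, ⟨d, t⟩⟩, hp⟩ _
    by_cases h1 : c = d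
    · subst h1
      rw [if_neg (c := (i, j) = pr _), mul_zero]
      intro h
      apply hQ
      simp only [pr, Pool.Agent.TH598.GV.em, Prod.mk.injEq] at h
      obtain ⟨rfl, rfl⟩ := h
      refine ⟨c, ?_⟩
      cases s <;> cases t <;> simp [ps] at hp ⊢
    · rw [if_neg h1, zero_mul]

open Classical in
/-- the block sum of the standard symplectic matrices on the last blocks -/
theorem bt_eq {k : ℕ} (i j : Ix k) :
    bt (zu (Dm k) (fun _ => 0) (fun p : Pr k => if p.1.1.1 = p.1.2.1 then (1 : ℂ) else 0)) i j =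
      (if Q i j then 1 else 0) - (if Q j i then 1 else 0) := by
  rw [← sum_eq i j, ← sum_eq j i, ← sum_sub_distrib]
  unfold bt
  rw [Fintype.sum_sum_type]
  have h1 : ∑ a : K k, zu (Dm k) (fun _ => 0)
      (fun p : Pr k => if p.1.1.1 = p.1.2.1 then (1 : ℂ) else 0) (Sum.inl a) *
        E (Sum.inl a) i j = 0 := by
    refine sum_eq_zero fun a _ => ?_
    simp [zu]
  rw [h1, zero_add]
  refine sum_congr rfl fun p _ => ?_
  unfold E
  simp only [zu, Sum.elim_inr]
  ring

theorem q_asymm {k : ℕ} {i j : Ix k} (h : Q i j) : ¬ Q j i := by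
  rintro ⟨b, h1, _⟩
  obtain ⟨a, _, h2⟩ := h
  rw [h2] at h1
  simp at h1

/-- some alternating matrix of the hyperplane with kernel vector `e₁` has `ω_{e₁} ≠ 0` -/
theorem om_ne (k : ℕ) : ∃ x : Pr k → ℂ, om (bt (zu (Dm k) (fun _ => 0) x)) e1 ≠ 0 := by
  classical
  refine ⟨fun p => if p.1.1.1 = p.1.2.1 then (1 : ℂ) else 0, ?_⟩
  unfold om
  apply pp_ne
  · intro b
    refine Fin.cases ?_ (fun b => ?_) b
    · intro i j h
      rw [Fin.cons_zero] at h ⊢
      obtain ⟨c, s⟩ := i
      obtain ⟨d, t⟩ := j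
      unfold W at h ⊢
      simp only [e0, e1, Prod.mk.injEq] at h ⊢
      cases s <;> cases t <;> by_cases hc : c = 0 <;> by_cases hd : d = 0 <;>
        simp_all [sg]
    · intro i j h
      rw [Fin.cons_succ] at h ⊢
      rw [bt_eq] at h ⊢
      by_cases h1 : Q i j
      · have h2 := q_asymm h1
        rw [if_pos h1, if_neg h2]
        obtain ⟨a, rfl, rfl⟩ := h1
        simp [sg]
      · by_cases h2 : Q j i
        · rw [if_neg h1, if_pos h2]
          obtain ⟨a, rfl, rfl⟩ := h2
          simp [sg]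
        · rw [if_neg h1, if_neg h2, sub_zero] at h
          exact absurd rfl h
  · intro b
    refine Fin.cases ?_ (fun b => ?_) b
    · rw [Fin.cons_zero]
      simp [W, e0, e1]
    · rw [Fin.cons_succ, bt_eq]
      have h1 : Q ((b.succ, false) : Ix k) (b.succ, true) := ⟨b, rfl, rfl⟩
      rw [if_pos h1, if_neg (q_asymm h1)]
      simp

end Pool.Agent.TH557.J5807
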