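import Pool.Agent.TH77.LinCompact
import Pool.Agent.TH883.J880

set_option autoImplicit false

namespace Pool.Agent.TH77
open Filter Topology Set

/-- A maximal ideal with non-abelian quotient, in a Lie algebra given by a bilinear map. -/
structure IsMaxI {E : Type*} [AddCommGroup E] [Module ℝ E] (β : E → E → E)
    (g I : Submodule ℝ E) : Prop where
  le : I ≤ g
  ideal : ∀ x ∈ g, ∀ y ∈ I, β x y ∈ I
  max : ∀ J : Submodule ℝ E, J ≤ g → (∀ x ∈ g, ∀ y ∈ J, β x y ∈ J) → I ≤ J → J = I ∨ J = g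
  perf : ∃ x ∈ g, ∃ y ∈ g, β x y ∉ I

/-- The finite case: the Chinese remainder theorem, for subspaces. -/
theorem j961_fin {E : Type*} [AddCommGroup E] [Module ℝ E]
    (β : E →ₗ[ℝ] E →ₗ[ℝ] E)
    (halt : ∀ x, β x x = 0) (hjac : ∀ x y z, β x (β y z) = β (β x y) z + β y (β x z))
    (g h : Submodule ℝ E) (hhg : h ≤ g)
    (hgh : ∀ x ∈ g, ∀ y ∈ g, β x y ∈ h) (T : Finset (Submodule ℝ E))
    (hT : ∀ I ∈ T, IsMaxI (fun x y => β x y) g I)
    (c : Submodule ℝ E → E) (hc : ∀ I ∈ T, c I ∈ g) :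
    ∃ X ∈ h, ∀ I ∈ T, X - c I ∈ I := by
  classical
  let iLR : LieRing ↥g :=
    { bracket := fun x y => ⟨β x y, hhg (hgh x x.2 y y.2)⟩
      add_lie := by
        intro x y z
        apply Subtype.ext
        change β (x + y : E) z = β x z + β y z
        rw [map_add]; rfl
      lie_add := by
        intro x y z
        apply Subtype.ext
        change β x (y + z : E) = β x y + β x z
        rw [map_add]
      lie_self := by intro x; exact Subtype.ext (halt x)
      leibniz_lie := by intro x y z; exact Subtype.ext (hjac x y z) }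
  let iLA : LieAlgebra ℝ ↥g :=
    { lie_smul := by
        intro t x y
        apply Subtype.ext
        change β x (t • y : E) = t • β x y
        rw [map_smul] }
  have hbr : ∀ x y : ↥g, ((⁅x, y⁆ : ↥g) : E) = β x y := fun x y => rfl
  let mk : ∀ I : Submodule ℝ E, (∀ x ∈ g, ∀ y ∈ I, β x y ∈ I) → LieIdeal ℝ ↥g := fun I hI =>
    { I.comap g.subtype with
      lie_mem := by
        intro x m hm
        change ((⁅x, m⁆ : ↥g) : E) ∈ I
        rw [hbr]
        exact hI x x.2 m hm }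
  have hmk : ∀ I hI (x : ↥g), x ∈ mk I hI ↔ (x : E) ∈ I := fun I hI x => Iff.rfl
  let idl : Submodule ℝ E → LieIdeal ℝ ↥g := fun I =>
    if hI : ∀ x ∈ g, ∀ y ∈ I, β x y ∈ I then mk I hI else ⊥
  have hidl : ∀ I ∈ T, ∀ x : ↥g, x ∈ idl I ↔ (x : E) ∈ I := by
    intro I hI x
    have h1 : idl I = mk I (hT I hI).ideal := dif_pos (hT I hI).ideal
    rw [h1]
    exact hmk I (hT I hI).ideal x
  have hmap : ∀ I ∈ T, Submodule.map g.subtype (idl I).toSubmodule = I := by
    intro I hI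
    ext x
    rw [Submodule.mem_map]
    constructor
    · rintro ⟨y, hy, rfl⟩
      exact (hidl I hI y).1 hy
    · intro hx
      exact ⟨⟨x, (hT I hI).le hx⟩, (hidl I hI _).2 hx, rfl⟩
  let c' : LieIdeal ℝ ↥g → ↥g := fun K =>
    if hK : c (Submodule.map g.subtype K.toSubmodule) ∈ g then ⟨_, hK⟩ else 0
  have hc' : ∀ I ∈ T, ((c' (idl I) : ↥g) : E) = c I := by
    intro I hI
    have h1 : c (Submodule.map g.subtype (idl I).toSubmodule) ∈ g := by
      rw [hmap I hI]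
      exact hc I hI
    have h2 : c' (idl I) = ⟨_, h1⟩ := dif_pos h1
    rw [h2]
    change c (Submodule.map g.subtype (idl I).toSubmodule) = c I
    rw [hmap I hI]
  have hperf : ∀ I ∈ T, ¬ ⁅(⊤ : LieIdeal ℝ ↥g), (⊤ : LieIdeal ℝ ↥g)⁆ ≤ idl I := by
    intro I hI hle
    obtain ⟨x, hx, y, hy, hxy⟩ := (hT I hI).perf
    apply hxy
    have h1 : ⁅(⟨x, hx⟩ : ↥g), (⟨y, hy⟩ : ↥g)⁆ ∈ idl I :=
      hle (LieSubmodule.lie_mem_lie (LieSubmodule.mem_top _) (LieSubmodule.mem_top _))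
    exact (hidl I hI _).1 h1
  have hco : ∀ I ∈ T, IsCoatom (idl I) := by
    intro I hI
    refine ⟨?_, ?_⟩
    · intro h1
      apply hperf I hI
      rw [h1]
      exact le_top
    · intro K hK
      have h1 : ∀ x ∈ g, ∀ y ∈ Submodule.map g.subtype K.toSubmodule,
          β x y ∈ Submodule.map g.subtype K.toSubmodule := by
        intro x hx y hy
        rw [Submodule.mem_map] at hy ⊢
        obtain ⟨z, hz, rfl⟩ := hy
        exact ⟨⁅(⟨x, hx⟩ : ↥g), z⁆, lie_mem_right ℝ _ K _ _ hz, rfl⟩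
      have h2 : Submodule.map g.subtype K.toSubmodule ≤ g := by
        rintro _ ⟨z, _, rfl⟩
        exact z.2
      have h3 : I ≤ Submodule.map g.subtype K.toSubmodule := by
        rw [← hmap I hI]
        exact Submodule.map_mono hK.le
      rcases (hT I hI).max _ h2 h1 h3 with h4 | h4
      · exfalso
        apply hK.not_ge
        intro x hx
        rw [hidl I hI, ← h4]
        exact ⟨x, hx, rfl⟩
      · rw [eq_top_iff]
        intro x _
        have h5 : (x : E) ∈ Submodule.map g.subtype K.toSubmodule := by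
          rw [h4]
          exact x.2
        obtain ⟨z, hz, hzx⟩ := h5
        have h6 : z = x := Subtype.ext hzx
        rw [← h6]
        exact hz
  let h' : LieIdeal ℝ ↥g := mk h (fun x hx y hy => hgh x hx y (hhg hy))
  have hh' : ⁅(⊤ : LieIdeal ℝ ↥g), (⊤ : LieIdeal ℝ ↥g)⁆ ≤ h' := by
    rw [LieSubmodule.lie_le_iff]
    intro x _ y _
    change ((⁅x, y⁆ : ↥g) : E) ∈ h
    rw [hbr]
    exact hgh x x.2 y y.2
  obtain ⟨X, hX, hXT⟩ := AN.crt (T.image idl) (by
      intro K hK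
      obtain ⟨I, hI, rfl⟩ := Finset.mem_image.1 hK
      exact hco I hI) (by
      intro K hK
      obtain ⟨I, hI, rfl⟩ := Finset.mem_image.1 hK
      exact hperf I hI) h' hh' c'
  refine ⟨X, hX, fun I hI => ?_⟩
  have h1 := (hidl I hI _).1 (hXT (idl I) (Finset.mem_image_of_mem _ hI))
  rw [← hc' I hI]
  exact h1

/-- JOB I. Simultaneous congruences modulo infinitely many maximal ideals, in linearly compact
subspaces of a product. -/
theorem glob_solve {ι : Type*} {E : ι → Type*} [∀ i, AddCommGroup (E i)] [∀ i, Module ℝ (E i)]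
    [∀ i, FiniteDimensional ℝ (E i)] (β : (∀ i, E i) →ₗ[ℝ] (∀ i, E i) →ₗ[ℝ] (∀ i, E i))
    (halt : ∀ x, β x x = 0) (hjac : ∀ x y z, β x (β y z) = β (β x y) z + β y (β x z))
    (g h : Submodule ℝ (∀ i, E i)) (hhg : h ≤ g) (hhFC : FC h)
    (hgh : ∀ x ∈ g, ∀ y ∈ g, β x y ∈ h) (J : Set (Submodule ℝ (∀ i, E i)))
    (hJ : ∀ I ∈ J, IsMaxI (fun x y => β x y) g I)
    (hJF : ∀ I ∈ J, ∃ F : Finset ι, ∀ X ∈ g, (∀ i ∈ F, X i = 0) → X ∈ I)
    (c : Submodule ℝ (∀ i, E i) → ∀ i, E i) (hc : ∀ I ∈ J, c I ∈ g) :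
    ∃ X ∈ h, ∀ I ∈ J, X - c I ∈ I := by
  classical
  rcases isEmpty_or_nonempty ι with hι | ⟨⟨i0⟩⟩
  · refine ⟨0, h.zero_mem, fun I _ => ?_⟩
    have h1 : (0 : ∀ i, E i) - c I = 0 := Subsingleton.elim _ _
    rw [h1]
    exact I.zero_mem
  let fz : (∀ i, ℝ × E i) →ₗ[ℝ] ℝ := LinearMap.fst ℝ ℝ (E i0) ∘ₗ LinearMap.proj i0
  let sz : (∀ i, ℝ × E i) →ₗ[ℝ] (∀ i, E i) :=
    LinearMap.pi fun i => LinearMap.snd ℝ ℝ (E i) ∘ₗ LinearMap.proj i
  have hfz : ∀ Z, fz Z = (Z i0).1 := fun Z => rfl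
  have hsz : ∀ Z i, sz Z i = (Z i).2 := fun Z i => rfl
  let S : Finset (Submodule ℝ (∀ i, E i)) → Submodule ℝ (∀ i, ℝ × E i) := fun T =>
    { carrier := {Z | (∀ i, (Z i).1 = fz Z) ∧ sz Z ∈ h ∧ ∀ I ∈ T, sz Z - fz Z • c I ∈ I}
      add_mem' := by
        rintro a b ⟨ha1, ha2, ha3⟩ ⟨hb1, hb2, hb3⟩
        refine ⟨fun i => ?_, ?_, fun I hI => ?_⟩
        · rw [map_add, ← ha1 i, ← hb1 i]
          rfl
        · rw [map_add]
          exact h.add_mem ha2 hb2
        · rw [map_add, map_add, add_smul]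
          have h1 : sz a + sz b - (fz a • c I + fz b • c I) =
              (sz a - fz a • c I) + (sz b - fz b • c I) := by abel
          rw [h1]
          exact I.add_mem (ha3 I hI) (hb3 I hI)
      zero_mem' := by
        refine ⟨fun i => ?_, ?_, fun I hI => ?_⟩
        · rw [map_zero]
          rfl
        · rw [map_zero]
          exact h.zero_mem
        · rw [map_zero, map_zero, zero_smul, sub_zero]
          exact I.zero_mem
      smul_mem' := by
        rintro t a ⟨ha1, ha2, ha3⟩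
        refine ⟨fun i => ?_, ?_, fun I hI => ?_⟩
        · rw [map_smul, ← ha1 i]
          rfl
        · rw [map_smul]
          exact h.smul_mem t ha2
        · rw [map_smul, map_smul, smul_assoc, ← smul_sub]
          exact I.smul_mem t (ha3 I hI) }
  have hS : ∀ T Z, Z ∈ S T ↔ (∀ i, (Z i).1 = fz Z) ∧ sz Z ∈ h ∧ ∀ I ∈ T, sz Z - fz Z • c I ∈ I :=
    fun T Z => Iff.rfl
  let 𝒮 : Set (Submodule ℝ (∀ i, ℝ × E i)) := {W | ∃ T : Finset (Submodule ℝ (∀ i, E i)),
    (∀ I ∈ T, I ∈ J) ∧ W = S T}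
  obtain ⟨_, ⟨T, hTJ, rfl⟩, hT2⟩ := lin_compact (E := fun i => ℝ × E i) (𝒮 := 𝒮)
    ⟨S ∅, ∅, fun I hI => absurd hI (Finset.notMem_empty I), rfl⟩
    (by
      rintro _ ⟨T, hT, rfl⟩ _ ⟨T', hT', rfl⟩
      refine ⟨S (T ∪ T'), ⟨T ∪ T', ?_, rfl⟩, ?_, ?_⟩
      · intro I hI
        rcases Finset.mem_union.1 hI with h1 | h1
        · exact hT I h1
        · exact hT' I h1
      · intro Z hZ
        rw [hS] at hZ ⊢
        exact ⟨hZ.1, hZ.2.1, fun I hI => hZ.2.2 I (Finset.mem_union_left _ hI)⟩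
      · intro Z hZ
        rw [hS] at hZ ⊢
        exact ⟨hZ.1, hZ.2.1, fun I hI => hZ.2.2 I (Finset.mem_union_right _ hI)⟩)
    (by
      rintro _ ⟨T, hT, rfl⟩ Z hZ
      have hZh : sz Z ∈ h := by
        apply hhFC
        intro F
        obtain ⟨Y, hY, hYF⟩ := hZ F
        refine ⟨sz Y, ((hS T Y).1 hY).2.1, fun i hi => ?_⟩
        rw [hsz, hsz, hYF i hi]
      rw [hS]
      refine ⟨fun i => ?_, hZh, fun I hI => ?_⟩
      · obtain ⟨Y, hY, hYF⟩ := hZ {i, i0}
        have h1 := ((hS T Y).1 hY).1 i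
        rw [hfz] at h1 ⊢
        rw [← hYF i (by simp), ← hYF i0 (by simp)]
        exact h1
      · obtain ⟨F, hF⟩ := hJF I (hT I hI)
        obtain ⟨Y, hY, hYF⟩ := hZ (insert i0 F)
        have hY' := (hS T Y).1 hY
        have h1 : sz Z - sz Y ∈ I := by
          refine hF _ (g.sub_mem (hhg hZh) (hhg hY'.2.1)) fun i hi => ?_
          rw [Pi.sub_apply, hsz, hsz, hYF i (Finset.mem_insert_of_mem hi), sub_self]
        have h2 := hY'.2.2 I hI
        have h3 : fz Z = fz Y := by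
          rw [hfz, hfz, hYF i0 (Finset.mem_insert_self _ _)]
        have h4 : sz Z - fz Z • c I = (sz Z - sz Y) + (sz Y - fz Y • c I) := by
          rw [h3]; abel
        rw [h4]
        exact I.add_mem h1 h2)
    {i0}
  obtain ⟨X, hXh, hXT⟩ := j961_fin β halt hjac g h hhg hgh T (fun I hI => hJ I (hTJ I hI)) c
    (fun I hI => hc I (hTJ I hI))
  obtain ⟨Z, hZ, hZ0⟩ := hT2 (fun i => (1, X i)) (by
    rw [hS]
    have h1 : sz (fun i => ((1 : ℝ), X i)) = X := rfl
    have h2 : fz (fun i => ((1 : ℝ), X i)) = 1 := rfl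
    rw [h1, h2]
    refine ⟨fun i => rfl, hXh, fun I hI => ?_⟩
    rw [one_smul]
    exact hXT I hI)
  have hf1 : fz Z = 1 := by
    rw [hfz, hZ0 i0 (Finset.mem_singleton_self _)]
  refine ⟨sz Z, ?_, fun I hI => ?_⟩
  · exact ((hS ∅ Z).1 (hZ (S ∅) ⟨∅, fun I hI => absurd hI (Finset.notMem_empty I), rfl⟩)).2.1
  · have h1 := ((hS {I} Z).1 (hZ (S {I}) ⟨{I}, fun K hK => by
      rw [Finset.mem_singleton.1 hK]; exact hI, rfl⟩)).2.2 I (Finset.mem_singleton_self _)
    rw [hf1, one_smul] at h1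
    exact h1

end Pool.Agent.TH77
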